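import Pool.Agent.TH147.DM.Main1

/-!
An endomorphism of the complex projective space `ℙ⁴` and an irreducible quadric hypersurface
containing a Zariski dense set of preperiodic points, such that the only special subvariety
containing the quadric is `ℙ⁴`.
-/

set_option autoImplicit false
set_option linter.unusedSectionVars false

open MvPolynomial

namespace Pool.Agent.Results.MP_dc01aa_ag.ConeOverDiagonal

section Statement

/-- The complex projective space of dimension `N`. -/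
abbrev PSpace (N : ℕ) : Type := Projectivization ℂ (Fin (N + 1) → ℂ)

variable {N : ℕ}

/-- The vector of values at `v` of a family of polynomials. -/
noncomputable def values (F : Fin (N + 1) → MvPolynomial (Fin (N + 1)) ℂ) (v : Fin (N + 1) → ℂ) :
    Fin (N + 1) → ℂ := fun i => eval v (F i)

/-- The zero locus of a form. -/
def zeroLocus (Q : MvPolynomial (Fin (N + 1)) ℂ) : Set (PSpace N) := {p | eval p.rep Q = 0}

/-- Zariski closed subsets: intersections of zero loci of forms. -/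
def IsClosedSet (Z : Set (PSpace N)) : Prop :=
  ∃ T : Set (MvPolynomial (Fin (N + 1)) ℂ), (∀ f ∈ T, ∃ d, f.IsHomogeneous d) ∧
    Z = {p | ∀ f ∈ T, p ∈ zeroLocus f}

/-- Irreducible closed subvarieties. -/
def IsSubvariety (Z : Set (PSpace N)) : Prop :=
  IsClosedSet Z ∧ Z.Nonempty ∧ ∀ Z₁ Z₂ : Set (PSpace N), IsClosedSet Z₁ → IsClosedSet Z₂ →
    Z ⊆ Z₁ ∪ Z₂ → Z ⊆ Z₁ ∨ Z ⊆ Z₂

/-- `S` is a Zariski dense subset of `Z`. -/
def IsDenseIn (S Z : Set (PSpace N)) : Prop :=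
  S ⊆ Z ∧ ∀ W : Set (PSpace N), IsClosedSet W → S ⊆ W → Z ⊆ W

/-- `Φ` is an endomorphism of degree `d`: it is given by forms of degree `d` without a common
zero. -/
def IsEndomorphism (d : ℕ) (Φ : PSpace N → PSpace N) : Prop :=
  ∃ F : Fin (N + 1) → MvPolynomial (Fin (N + 1)) ℂ, (∀ i, (F i).IsHomogeneous d) ∧
    ∀ (v : Fin (N + 1) → ℂ) (hv : v ≠ 0), ∃ h : values F v ≠ 0,
      Φ (Projectivization.mk ℂ v hv) = Projectivization.mk ℂ (values F v) h

/-- `Ψ` is a regular map on `Z`: near each point `p` of `Z` it is given by forms of the same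
degree (multiplying by a form which vanishes outside a neighbourhood of `p`, the formula holds at
every point of `Z` at which the forms do not all vanish). -/
def IsRegularOn (Z : Set (PSpace N)) (Ψ : PSpace N → PSpace N) : Prop :=
  ∀ p ∈ Z, ∃ (d : ℕ) (F : Fin (N + 1) → MvPolynomial (Fin (N + 1)) ℂ),
    (∀ i, (F i).IsHomogeneous d) ∧ values F p.rep ≠ 0 ∧
    ∀ (v : Fin (N + 1) → ℂ) (hv : v ≠ 0), Projectivization.mk ℂ v hv ∈ Z →
      ∀ h : values F v ≠ 0, Ψ (Projectivization.mk ℂ v hv) = Projectivization.mk ℂ (values F v) h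

/-- `Ψ` restricts to an endomorphism of the closed set `Z` with finite fibres and, unless `Z` is a
finite set, `Ψ` is not injective on `Z`. (Every polarizable endomorphism of `Z` has these
properties.) -/
structure IsNoninvertibleEndOn (Z : Set (PSpace N)) (Ψ : PSpace N → PSpace N) : Prop where
  regular : IsRegularOn Z Ψ
  mapsTo : Set.MapsTo Ψ Z Z
  finite_fibres : ∀ p ∈ Z, {p' ∈ Z | Ψ p' = Ψ p}.Finite
  not_injective : Z.Finite ∨ ¬ Set.InjOn Ψ Z

/-- `Y` is `Φ`-special, where the requirement that `Ψ` is polarizable is weakened to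
`IsNoninvertibleEndOn`. -/
def IsSpecial (Φ : PSpace N → PSpace N) (Y : Set (PSpace N)) : Prop :=
  ∃ (Z : Set (PSpace N)) (n : ℕ) (Ψ : PSpace N → PSpace N), IsClosedSet Z ∧ Y ⊆ Z ∧ 1 ≤ n ∧
    Φ^[n] '' Z = Z ∧ IsNoninvertibleEndOn Z Ψ ∧ (∀ p ∈ Z, Ψ (Φ^[n] p) = Φ^[n] (Ψ p)) ∧
    ∃ m l : ℕ, 1 ≤ l ∧ Ψ^[m + l] '' Y = Ψ^[m] '' Y

/-- Preperiodic points. -/
def IsPreperiodic (Φ : PSpace N → PSpace N) (p : PSpace N) : Prop :=
  ∃ m l : ℕ, 1 ≤ l ∧ Φ^[m + l] p = Φ^[m] p

end Statement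

open Pool.Agent.TH147.DM

section Aux

lemma closed_zeroLocus {Q : S5} {d : ℕ} (hQ : Q.IsHomogeneous d) :
    IsClosedSet (N := 4) (zeroLocus Q) :=
  ⟨{Q}, by rintro f rfl; exact ⟨d, hQ⟩, by ext p; simp⟩

lemma mem_zeroLocus {f : S5} {d : ℕ} (hf : f.IsHomogeneous d) (v : Fin 5 → ℂ) (hv : v ≠ 0) :
    Projectivization.mk ℂ v hv ∈ zeroLocus (N := 4) f ↔ eval v f = 0 :=
  eval_rep hf v hv

lemma qd_eq : zeroLocus (N := 4) qd = Yq := rfl

/-- forms vanishing on the quadric -/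
lemma vanish_iff {f : S5} {d : ℕ} (hf : f.IsHomogeneous d) :
    Yq ⊆ zeroLocus (N := 4) f ↔ ∀ v : Fin 5 → ℂ, v ≠ 0 → v 1 * v 4 = v 2 * v 3 → eval v f = 0 := by
  constructor
  · intro h v hv hv2
    exact (mem_zeroLocus hf v hv).1 (h ((mk_mem_Yq v hv).2 hv2))
  · intro h p hp
    induction p using Projectivization.ind with | h v hv
    exact (mem_zeroLocus hf v hv).2 (h v hv ((mk_mem_Yq v hv).1 hp))

lemma Yq_irred : IsSubvariety (N := 4) (zeroLocus qd) := by
  refine ⟨closed_zeroLocus qd_hom, ?_, ?_⟩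
  · have h0 : (![1, 0, 0, 0, 0] : Fin 5 → ℂ) ≠ 0 := fun h => one_ne_zero (congrFun h 0)
    exact ⟨Projectivization.mk ℂ _ h0, (mk_mem_Yq _ h0).2 (by simp)⟩
  · rintro Z₁ Z₂ ⟨T₁, hT₁, rfl⟩ ⟨T₂, hT₂, rfl⟩ hZ
    by_contra hcon
    push Not at hcon
    obtain ⟨h1, h2⟩ := hcon
    rw [Set.not_subset] at h1 h2
    obtain ⟨p, hp, hp1⟩ := h1
    obtain ⟨p', hp', hp2⟩ := h2
    simp only [Set.mem_ofPred_eq, not_forall] at hp1 hp2
    obtain ⟨f, hf, hfp⟩ := hp1
    obtain ⟨g, hg, hgp⟩ := hp2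
    obtain ⟨d, hfd⟩ := hT₁ f hf
    obtain ⟨e, hge⟩ := hT₂ g hg
    have hfg : ∀ v : Fin 5 → ℂ, v ≠ 0 → v 1 * v 4 = v 2 * v 3 → eval v f = 0 ∨ eval v g = 0 := by
      intro v hv hv2
      rcases hZ ((mk_mem_Yq v hv).2 hv2) with h3 | h3
      · exact Or.inl ((mem_zeroLocus hfd v hv).1 (h3 f hf))
      · exact Or.inr ((mem_zeroLocus hge v hv).1 (h3 g hg))
    rcases irr_aux hfg with h3 | h3
    · exact hfp ((vanish_iff hfd).2 (fun v _ hv => h3 v hv) hp)
    · exact hgp ((vanish_iff hge).2 (fun v _ hv => h3 v hv) hp')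

lemma Yq_ne_univ : zeroLocus (N := 4) qd ≠ Set.univ := by
  intro h
  have h0 : (![0, 1, 0, 0, 1] : Fin 5 → ℂ) ≠ 0 := fun h => one_ne_zero (congrFun h 1)
  have h1 : Projectivization.mk ℂ (![0, 1, 0, 0, 1] : Fin 5 → ℂ) h0 ∈ zeroLocus (N := 4) qd := by
    rw [h]; exact Set.mem_univ _
  have h2 := (mk_mem_Yq _ h0).1 h1
  simp at h2

/-- the only subvarieties containing the quadric -/
lemma Yq_max (W : Set (PSpace 4)) (hW : IsSubvariety W) (hY : zeroLocus (N := 4) qd ⊆ W) :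
    W = zeroLocus (N := 4) qd ∨ W = Set.univ := by
  classical
  by_cases hex : ∃ d, ∃ f : S5, f.IsHomogeneous d ∧ f ≠ 0 ∧ W ⊆ zeroLocus (N := 4) f
  · left
    obtain ⟨f, hf, hf0, hWf⟩ := Nat.find_spec hex
    have hmin : ∀ d (g : S5), g.IsHomogeneous d → g ≠ 0 → W ⊆ zeroLocus (N := 4) g →
        Nat.find hex ≤ d := fun d g h1 h2 h3 => Nat.find_min' hex ⟨g, h1, h2, h3⟩
    obtain ⟨g, hg⟩ := qd_dvd ((vanish_iff hf).1 (hY.trans hWf))
    have hg0 : qd * g ≠ 0 := by rw [← hg]; exact hf0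
    obtain ⟨e, he, hge, hle⟩ := Hom.homog_of_mul (p := qd) (q := g) (D := Nat.find hex)
      (by rw [← hg]; exact hf) hg0
    have he2 : e = 2 := he.inj_right qd_hom qd_ne
    subst he2
    have hgne : g ≠ 0 := right_ne_zero_of_mul hg0
    refine Set.Subset.antisymm ?_ hY
    rcases hW.2.2 (zeroLocus qd) (zeroLocus g) (closed_zeroLocus qd_hom) (closed_zeroLocus hge)
      (by
        intro p hp
        have h1 := hWf hp
        have h2 : eval p.rep f = 0 := h1
        rw [hg, map_mul] at h2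
        exact mul_eq_zero.1 h2) with h1 | h1
    · exact h1
    · have := hmin _ g hge hgne h1
      omega
  · right
    push Not at hex
    obtain ⟨T, hT, rfl⟩ := hW.1
    ext p
    simp only [Set.mem_univ, iff_true]
    intro f hf
    obtain ⟨d, hfd⟩ := hT f hf
    by_cases hf0 : f = 0
    · show eval p.rep f = 0
      rw [hf0, map_zero]
    · exact absurd (fun q hq => hq f hf) (hex d f hfd hf0)

end Aux

/-- There are an endomorphism `Φ` of `ℙ⁴` of degree `5` and an irreducible quadric hypersurface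
`Y ⊂ ℙ⁴` such that the `Φ`-preperiodic points in `Y` are Zariski dense in `Y`, but the only
`Φ`-special subvariety of `ℙ⁴` which contains `Y` is `ℙ⁴`. -/
theorem result : ∃ (Φ : PSpace 4 → PSpace 4) (Q : MvPolynomial (Fin 5) ℂ),
    IsEndomorphism 5 Φ ∧ Q.IsHomogeneous 2 ∧ Q ≠ 0 ∧
    IsSubvariety (N := 4) (zeroLocus Q) ∧ zeroLocus (N := 4) Q ≠ Set.univ ∧
    (∀ W : Set (PSpace 4), IsSubvariety W → zeroLocus Q ⊆ W → W = zeroLocus Q ∨ W = Set.univ) ∧
    IsDenseIn {p ∈ zeroLocus Q | IsPreperiodic Φ p} (zeroLocus Q) ∧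
    ∀ 𝒴 : Set (PSpace 4), IsSubvariety 𝒴 → zeroLocus Q ⊆ 𝒴 → IsSpecial Φ 𝒴 → 𝒴 = Set.univ := by
  obtain ⟨a, ha⟩ : ∃ a : ℂ, a ^ 2 = 2 * a - 5 := ⟨1 + 2 * Complex.I, by
    linear_combination (4 : ℂ) * Complex.I_sq⟩
  obtain ⟨r, hr⟩ : ∃ r : ℂ, r ^ 2 = a := IsAlgClosed.exists_pow_nat_eq a (by norm_num)
  obtain ⟨b, hb⟩ : ∃ b : ℂ, b = 2 - a := ⟨_, rfl⟩
  have hb2 : b ^ 2 = 2 * b - 5 := by rw [hb]; linear_combination ha
  refine ⟨Phi ha hb2, qd, ?_, qd_hom, qd_ne, Yq_irred, Yq_ne_univ, Yq_max, ?_, ?_⟩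
  · refine ⟨PhiF a b, PhiF_hom a b, fun v hv => ?_⟩
    have h1 : values (N := 4) (PhiF a b) v = PV a b v := GV_PhiF v
    refine ⟨by rw [h1]; exact PV_ne ha hb2 hv, ?_⟩
    rw [Phi_mk]
    congr 1
    exact h1.symm
  · refine ⟨fun p hp => hp.1, ?_⟩
    rintro W ⟨T, hT, rfl⟩ hS p hp f hf
    obtain ⟨d, hfd⟩ := hT f hf
    have key : ∀ v : Fin 5 → ℂ, v 1 * v 4 = v 2 * v 3 → eval v f = 0 := by
      refine dens (a := a) (b := b) (r := r) ha hb hr ?_
      intro v hv hv2 hper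
      refine (mem_zeroLocus hfd v hv).1 (hS (a := Projectivization.mk ℂ v hv) ⟨?_, ?_⟩ f hf)
      · exact (mk_mem_Yq v hv).2 hv2
      · obtain ⟨i, k, hk, h⟩ := hper
        refine ⟨i, k, hk, ?_⟩
        rw [Phi_iter_mk, Phi_iter_mk]
        congr 1
    exact (vanish_iff hfd).2 (fun v _ hv => key v hv) hp
  · rintro 𝒴 h𝒴 hY ⟨Z, n, Ψ, hZ, h𝒴Z, hn, hΦZ, hΨ, hcomm, m, l, hl, hper⟩
    have hZuniv : Z = Set.univ := by
      obtain ⟨T, hT, hZT⟩ := hZ
      have hinv : ∀ (k : ℕ) (p : PSpace 4), p ∈ Z → (Phi ha hb2)^[n * k] p ∈ Z := by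
        intro k p hp
        induction k with
        | zero => exact hp
        | succ k ih =>
          rw [show n * (k + 1) = n + n * k by ring, Function.iterate_add_apply, ← hΦZ]
          exact ⟨_, ih, rfl⟩
      rw [hZT]
      ext p
      simp only [Set.mem_univ, iff_true]
      intro f hf
      obtain ⟨d, hfd⟩ := hT f hf
      refine zall (a := a) (b := b) (r := r) (f := f) ha hb hr hn ?_ p.rep
      intro k v hv hv2
      have h1 := hinv k _ (h𝒴Z (hY ((mk_mem_Yq v hv).2 hv2)))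
      rw [Phi_iter_mk, hZT] at h1
      exact (mem_zeroLocus hfd _ _).1 (h1 f hf)
    rcases Yq_max 𝒴 h𝒴 hY with h1 | h1
    · exfalso
      rw [h1] at hper
      rw [hZuniv] at hΨ hcomm
      refine no_map (r := r) ha hb hb2 hr (Ψ := Ψ) ?_ ?_ ?_ hn (fun p => hcomm p (Set.mem_univ p))
        hl hper
      · intro p
        obtain ⟨d, F, h2, h3, h4⟩ := hΨ.regular p (Set.mem_univ p)
        exact ⟨d, F, h2, h3, fun v hv h => h4 v hv (Set.mem_univ _) h⟩
      · intro p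
        refine (hΨ.finite_fibres p (Set.mem_univ p)).subset ?_
        intro p' hp'
        exact ⟨Set.mem_univ _, hp'⟩
      · rcases hΨ.not_injective with h2 | h2
        · exfalso
          have h3 := hΨ.finite_fibres
          have hne : ∀ t : ℂ, vec 1 (t, 0) 0 ≠ 0 := fun t h => one_ne_zero (congrFun h 0)
          have h4 : Function.Injective fun t : ℂ =>
              (Projectivization.mk ℂ (vec 1 (t, 0) 0) (hne t) : P4) := by
            intro t t' htt
            rw [Projectivization.mk_eq_mk_iff'] at htt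
            obtain ⟨c, hc⟩ := htt
            have e0 : c * 1 = 1 := congrFun hc 0
            have e1 : c * t' = t := congrFun hc 1
            rw [mul_one] at e0
            rw [← e1, e0, one_mul]
          exact (Set.infinite_range_of_injective h4) (h2.subset (Set.subset_univ _))
        · intro hinj
          exact h2 hinj.injOn
    · exact h1

end Pool.Agent.Results.MP_dc01aa_ag.ConeOverDiagonal
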